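import Pool.Agent.helper12.TY.Spec

set_option autoImplicit false

/-!
Project ty (MP_baa4d7_al), row YOS: sums over orbits.
-/

namespace Pool.Agent.TY

open Pool.Agent.helper58.DC Pool.Agent.DI Pool.Agent.GR Pool.Agent.OB Pool.Agent.TZ

theorem YOS_act {H α : Type} [Group H] [Finite H] [Fintype α] [MulAction H α] (f : α → ℤ) (N : ℤ)
    (hf : ∀ (h : H) (a : α), f (h • a) = f a)
    (hd : ∀ a : α, N * (Nat.card (MulAction.stabilizer H a) : ℤ) ∣ f a) :
    N * (Nat.card H : ℤ) ∣ ∑ a, f a := by
  classical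
  rw [← Finset.sum_fiberwise Finset.univ (fun a => (Quotient.mk (MulAction.orbitRel H α) a)) f]
  refine Finset.dvd_sum fun ω _ => ?_
  obtain ⟨a0, rfl⟩ := Quotient.exists_rep ω
  have h1 : ∀ a, (Quotient.mk (MulAction.orbitRel H α) a) = Quotient.mk (MulAction.orbitRel H α) a0 ↔
      a ∈ MulAction.orbit H a0 := by
    intro a
    rw [Quotient.eq]
    exact MulAction.orbitRel_apply
  have h2 : ∀ a, a ∈ MulAction.orbit H a0 → f a = f a0 := by
    rintro a ⟨h, rfl⟩
    exact hf h a0
  have h3 : ∑ a with (Quotient.mk (MulAction.orbitRel H α) a) = Quotient.mk (MulAction.orbitRel H α) a0, f a =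
      (Nat.card (MulAction.orbit H a0) : ℤ) * f a0 := by
    rw [Finset.sum_congr rfl (g := fun _ => f a0) (fun a ha => h2 a ((h1 a).1 (Finset.mem_filter.1 ha).2)),
      Finset.sum_const, nsmul_eq_mul]
    congr 2
    rw [Nat.card_eq_fintype_card, Fintype.card_subtype]
    congr 1
    ext a
    simp [h1]
  rw [h3]
  have h4 : Nat.card H = Nat.card (MulAction.orbit H a0) * Nat.card (MulAction.stabilizer H a0) := by
    rw [Subgroup.card_eq_card_quotient_mul_card_subgroup (MulAction.stabilizer H a0),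
      Nat.card_congr (MulAction.orbitEquivQuotientStabilizer H a0)]
  obtain ⟨c, hc⟩ := hd a0
  refine ⟨c, ?_⟩
  rw [h4, hc]
  push_cast
  ring

theorem YOS_mem {E : Type} [Group E] (Q : Subgroup E) (u x : E) :
    x ∈ Q.map (MulAut.conj u).toMonoidHom ↔ u⁻¹ * x * u ∈ Q := by
  constructor
  · rintro ⟨y, hy, rfl⟩
    have e : u⁻¹ * ((MulAut.conj u).toMonoidHom y) * u = y := by
      simp [mul_assoc]
    rw [e]
    exact hy
  · intro h
    refine ⟨u⁻¹ * x * u, h, ?_⟩
    simp [mul_assoc]

theorem YOS_QQ {p : ℕ} {E : Type} [Group E] {G' : Subgroup E} (hN : G'.Normal) (u : E) {Q : Subgroup E}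
    (hQ : Q ∈ QQ p G') : Q.map (MulAut.conj u).toMonoidHom ∈ QQ p G' := by
  obtain ⟨h1, h2, h3⟩ := hQ
  refine ⟨?_, h2.map _, ?_⟩
  · intro h
    apply h1
    rw [Subgroup.eq_bot_iff_forall]
    intro x hx
    have h4 : u * x * u⁻¹ ∈ Q.map (MulAut.conj u).toMonoidHom := by
      rw [YOS_mem]
      have e : u⁻¹ * (u * x * u⁻¹) * u = x := by group
      rw [e]
      exact hx
    rw [h, Subgroup.mem_bot] at h4
    have h5 : x = u⁻¹ * (u * x * u⁻¹) * u := by group
    rw [h5, h4]
    group
  · rw [Subgroup.eq_bot_iff_forall]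
    intro x hx
    have h4 := (YOS_mem Q u x).1 hx.1
    have h5 : u⁻¹ * x * u ∈ G' := by
      have := hN.conj_mem x hx.2 u⁻¹
      rwa [inv_inv] at this
    have h6 : u⁻¹ * x * u ∈ Q ⊓ G' := ⟨h4, h5⟩
    rw [h3, Subgroup.mem_bot] at h6
    have h7 : x = u * (u⁻¹ * x * u) * u⁻¹ := by group
    rw [h7, h6]
    group

theorem YOS (hA9 : Pool.Agent.DI.A9_stmt) : YOS_stmt := by
  classical
  intro p _ E _ _ G' hN hcomm T N hT hdiv
  have hfin : (QQ p G').Finite := Set.toFinite _
  letI : Fintype (QQ p G') := hfin.fintype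
  letI : MulAction G' (QQ p G') :=
    { smul := fun u Q => ⟨Q.1.map (MulAut.conj (u : E)).toMonoidHom, YOS_QQ hN (u : E) Q.2⟩
      one_smul := by
        intro Q
        apply Subtype.ext
        ext x
        change x ∈ Q.1.map (MulAut.conj ((1 : G') : E)).toMonoidHom ↔ x ∈ Q.1
        rw [YOS_mem]
        simp
      mul_smul := by
        intro u v Q
        apply Subtype.ext
        ext x
        change x ∈ Q.1.map (MulAut.conj ((u * v : G') : E)).toMonoidHom ↔
          x ∈ (Q.1.map (MulAut.conj (v : E)).toMonoidHom).map (MulAut.conj (u : E)).toMonoidHom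
        rw [YOS_mem, YOS_mem, YOS_mem]
        have e : ((u * v : G') : E)⁻¹ * x * ((u * v : G') : E) = (v : E)⁻¹ * ((u : E)⁻¹ * x * (u : E)) * (v : E) := by
          rw [Subgroup.coe_mul]
          group
        rw [e] }
  have hstab : ∀ Q : QQ p G', Nat.card (MulAction.stabilizer G' Q) = Nat.card ↥(G' ⊓ cz Q.1) := by
    intro Q
    have h1 : MulAction.stabilizer G' Q = (cz Q.1).subgroupOf G' := by
      ext u
      rw [MulAction.mem_stabilizer_iff, Subgroup.mem_subgroupOf, ← (hA9 E G' Q.1 hN hcomm Q.2.2.2).1,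
        Subgroup.mem_normalizer_iff]
      constructor
      · intro h x
        have h2 : Q.1.map (MulAut.conj (u : E)).toMonoidHom = Q.1 := congrArg Subtype.val h
        constructor
        · intro hx
          rw [← h2, YOS_mem]
          have e : (u : E)⁻¹ * ((u : E) * x * (u : E)⁻¹) * (u : E) = x := by group
          rw [e]
          exact hx
        · intro hx
          rw [← h2, YOS_mem] at hx
          have e : (u : E)⁻¹ * ((u : E) * x * (u : E)⁻¹) * (u : E) = x := by group
          rwa [e] at hx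
      · intro h
        apply Subtype.ext
        change Q.1.map (MulAut.conj (u : E)).toMonoidHom = Q.1
        ext x
        rw [YOS_mem, h]
        have e : (u : E) * ((u : E)⁻¹ * x * (u : E)) * (u : E)⁻¹ = x := by group
        rw [e]
    rw [h1, ← Subgroup.card_map_of_injective (f := G'.subtype) (K := (cz Q.1).subgroupOf G') G'.subtype_injective,
      Subgroup.subgroupOf_map_subtype, inf_comm]
  have key := YOS_act (H := G') (α := QQ p G') (fun Q => T Q.1) N (fun u Q => hT u u.2 Q.1 Q.2) (by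
    intro Q
    rw [hstab]
    exact hdiv Q.1 Q.2)
  have e : ∑ᶠ Q ∈ QQ p G', T Q = ∑ Q : QQ p G', T Q.1 := by
    rw [← finsum_set_coe_eq_finsum_mem (QQ p G'), finsum_eq_sum_of_fintype]
  rw [e]
  exact key

end Pool.Agent.TY
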